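import Pool.Agent.Y506.IP.Proj

/-!
# The flat box `[-1,1]² × [-h,h]`, `h = 1/1000`
-/

set_option autoImplicit false

open MeasureTheory Set Filter Topology
open scoped Pointwise ENNReal

namespace Pool.Agent.Y506.IP

/-- the half height -/
noncomputable def h0 : ℝ := 1 / 1000

/-- the flat box -/
noncomputable def KK : Set E := Bx 1 1 h0

theorem h0_pos : 0 < h0 := by unfold h0; norm_num

theorem KK_vol : (volume KK).toReal = 8 * h0 := by
  unfold KK
  rw [vol_Bx _ _ _ zero_le_one zero_le_one h0_pos.le, ENNReal.toReal_ofReal]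
  · ring
  · have := h0_pos
    positivity

theorem KK_ball (x : E) (hx : ‖x‖ ≤ h0) : x ∈ KK := by
  have h1 : h0 ≤ 1 := by unfold h0; norm_num
  exact ⟨(abs_coord_le x 0).trans (hx.trans h1), (abs_coord_le x 1).trans (hx.trans h1),
    (abs_coord_le x 2).trans hx⟩

theorem KK_int : (interior KK).Nonempty := by
  refine ⟨0, ?_⟩
  rw [mem_interior]
  refine ⟨Metric.ball 0 h0, ?_, Metric.isOpen_ball, Metric.mem_ball_self h0_pos⟩
  intro x hx
  rw [mem_ball_zero_iff] at hx
  exact KK_ball x hx.le

theorem norm_sq3 (x : E) : ‖x‖ ^ 2 = x 0 ^ 2 + x 1 ^ 2 + x 2 ^ 2 := by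
  rw [EuclideanSpace.norm_sq_eq, Fin.sum_univ_three]
  simp only [Real.norm_eq_abs, sq_abs]

theorem KK_norm (x : E) (hx : x ∈ KK) : ‖x‖ ≤ 2 := by
  obtain ⟨h1, h2, h3⟩ := hx
  have h4 : h0 ≤ 1 := by unfold h0; norm_num
  have h5 := h3.trans h4
  have h6 : ‖x‖ ^ 2 ≤ 2 ^ 2 := by
    rw [norm_sq3]
    have a1 := abs_le.1 h1
    have a2 := abs_le.1 h2
    have a3 := abs_le.1 h5
    nlinarith
  exact (pow_le_pow_iff_left₀ (norm_nonneg _) (by norm_num) two_ne_zero).1 h6

/-- the surface area -/
theorem KK_surface : Tendsto (fun t : ℝ =>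
    ((volume (KK + Metric.closedBall (0 : E) t)).toReal - (volume KK).toReal) / (2 * t))
    (𝓝[>] 0) (𝓝 (4 + 8 * h0)) := by
  have hh := h0_pos
  have h1 : Tendsto (fun t : ℝ => 4 * (1 + 2 * h0 + 2 * t + t * h0 + t ^ 2)) (𝓝[>] 0)
      (𝓝 (4 + 8 * h0)) := by
    have : Tendsto (fun t : ℝ => 4 * (1 + 2 * h0 + 2 * t + t * h0 + t ^ 2)) (𝓝 0)
        (𝓝 (4 * (1 + 2 * h0 + 2 * 0 + 0 * h0 + 0 ^ 2))) :=
      Continuous.tendsto (by fun_prop) 0
    have e : 4 * (1 + 2 * h0 + 2 * 0 + 0 * h0 + 0 ^ 2) = 4 + 8 * h0 := by ring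
    rw [e] at this
    exact this.mono_left nhdsWithin_le_nhds
  refine tendsto_of_tendsto_of_tendsto_of_le_of_le' tendsto_const_nhds h1 ?_ ?_
  · filter_upwards [self_mem_nhdsWithin] with t ht
    have ht' : 0 < t := ht
    have h2 := vol_three 1 1 h0 t zero_le_one zero_le_one hh.le ht'.le
    have hfin : volume (KK + Metric.closedBall (0 : E) t) ≠ ⊤ :=
      ((isCompact_Bx 1 1 h0).add (isCompact_closedBall _ _)).measure_lt_top.ne
    have h3 := ENNReal.toReal_mono hfin h2
    rw [ENNReal.toReal_ofReal (by positivity)] at h3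
    rw [KK_vol, le_div_iff₀ (by positivity)]
    linarith
  · filter_upwards [self_mem_nhdsWithin] with t ht
    have ht' : 0 < t := ht
    have h2 := measure_mono (μ := (volume : Measure E)) (Bx_add_ball_sub 1 1 h0 t)
    rw [vol_Bx _ _ _ (by positivity) (by positivity) (by positivity)] at h2
    have h3 := ENNReal.toReal_mono ENNReal.ofReal_ne_top h2
    rw [ENNReal.toReal_ofReal (by positivity)] at h3
    rw [KK_vol, div_le_iff₀ (by positivity)]
    have h4 : (volume (KK + Metric.closedBall (0 : E) t)).toReal ≤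
        8 * (1 + t) * (1 + t) * (h0 + t) := h3
    nlinarith

theorem abs_of_unit (u : E) (hu : ‖u‖ = 1) (i : Fin 3) : |u i| ≤ 1 := hu ▸ abs_coord_le u i

theorem KK_rod (u : E) : (volume (KK + rod u 0 1)) ≤
    ENNReal.ofReal ((2 + |u 0|) * (2 + |u 1|) * (2 * h0 + |u 2|)) := by
  have hh := h0_pos
  have h1 : KK + rod u 0 1 ⊆ {x : E | ∀ i, x i ∈ Icc (![-1 + min 0 (u 0), -1 + min 0 (u 1),
      -h0 + min 0 (u 2)] i) (![1 + max 0 (u 0), 1 + max 0 (u 1), h0 + max 0 (u 2)] i)} := by
    rintro _ ⟨x, ⟨h0', h1', h2'⟩, _, ⟨s, ⟨hs0, hs1⟩, rfl⟩, rfl⟩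
    rw [abs_le] at h0' h1' h2'
    have key : ∀ v : ℝ, min 0 v ≤ s * v ∧ s * v ≤ max 0 v := by
      intro v
      rcases le_total 0 v with hv | hv
      · rw [min_eq_left hv, max_eq_right hv]
        constructor <;> nlinarith
      · rw [min_eq_right hv, max_eq_left hv]
        constructor <;> nlinarith
    have hval : ∀ i, (x + (fun s : ℝ => s • u) s) i = x i + s * u i := fun i => by simp
    intro i
    rw [hval]
    fin_cases i
    · have := key (u 0)
      simp only [mem_Icc]
      constructor
      · show -1 + min 0 (u 0) ≤ x 0 + s * u 0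
        linarith
      · show x 0 + s * u 0 ≤ 1 + max 0 (u 0)
        linarith
    · have := key (u 1)
      simp only [mem_Icc]
      constructor
      · show -1 + min 0 (u 1) ≤ x 1 + s * u 1
        linarith
      · show x 1 + s * u 1 ≤ 1 + max 0 (u 1)
        linarith
    · have := key (u 2)
      simp only [mem_Icc]
      constructor
      · show -h0 + min 0 (u 2) ≤ x 2 + s * u 2
        linarith
      · show x 2 + s * u 2 ≤ h0 + max 0 (u 2)
        linarith
  refine (measure_mono h1).trans ?_
  rw [vol_cbox, Fin.prod_univ_three]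
  simp only [Matrix.cons_val_zero, Matrix.cons_val_one, Matrix.cons_val]
  have e : ∀ v c : ℝ, c + max 0 v - (-c + min 0 v) = 2 * c + |v| := by
    intro v c
    rcases le_total 0 v with hv | hv
    · rw [min_eq_left hv, max_eq_right hv, abs_of_nonneg hv]; ring
    · rw [min_eq_right hv, max_eq_left hv, abs_of_nonpos hv]; ring
  rw [e (u 0) 1, e (u 1) 1, e (u 2) h0, ← ENNReal.ofReal_mul (by positivity),
    ← ENNReal.ofReal_mul (by positivity)]
  apply le_of_eq
  congr 1
  ring

theorem main :
    ∃ (K : Set E) (c : ℝ), IsCompact K ∧ Convex ℝ K ∧ (interior K).Nonempty ∧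
    (∀ u ∈ Metric.sphere (0 : E) 1, ∀ L : ℝ,
      Tendsto (fun t : ℝ =>
        ((volume ((fun x : E => x - (inner ℝ u x) • u) '' K
              + Metric.closedBall (0 : E) t)).toReal
          - 2 * t * ((volume (K + segment ℝ (0 : E) u)).toReal
              - (volume K).toReal)) / (Real.pi * t ^ 2))
        (nhdsWithin 0 (Set.Ioi 0)) (nhds L) →
      c ≤ Real.pi * ((volume (K + segment ℝ (0 : E) u)).toReal
              - (volume K).toReal) / L ^ 2) ∧
    ∃ S : ℝ,
      Tendsto (fun t : ℝ =>
        ((volume (K + Metric.closedBall (0 : E) t)).toReal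
          - (volume K).toReal) / (2 * t))
        (nhdsWithin 0 (Set.Ioi 0)) (nhds S) ∧
      9 * Real.pi * (volume K).toReal ^ 2 / (2 * S ^ 3) < c := by
  have hh := h0_pos
  have hKc : IsCompact KK := isCompact_Bx 1 1 h0
  have hKv : Convex ℝ KK := convex_Bx 1 1 h0
  have hpi := Real.pi_pos
  refine ⟨KK, 3 / 100000, hKc, hKv, KK_int, ?_, 4 + 8 * h0, KK_surface, ?_⟩
  · intro u hu L hL
    have hu1 : ‖u‖ = 1 := by simpa using hu
    obtain ⟨A, hA, hA1⟩ := vol_fib u hu1 KK hKv hKc
    have hcomp : IsCompact (KK + rod u 0 1) := hKc.add (isCompact_rod u 0 1)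
    have hAfin : A ≠ ⊤ := by
      have : volume (KK + rod u 0 1) ≠ ⊤ := hcomp.measure_lt_top.ne
      rw [hA1] at this
      exact fun h => this (by rw [h]; simp)
    have hKfin : volume KK ≠ ⊤ := hKc.measure_lt_top.ne
    rw [seg_eq_rod] at hL ⊢
    have hW : (volume (KK + rod u 0 1)).toReal - (volume KK).toReal = A.toReal := by
      rw [hA1, ENNReal.toReal_add hKfin hAfin]
      ring
    rw [hW] at hL ⊢
    -- inner radius
    set M : ℝ := max h0 (|u 2| / 2) with hM
    have hMpos : 0 < M := lt_of_lt_of_le hh (le_max_left _ _)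
    have hsubr : ∀ y : E, inner ℝ u y = 0 → ‖y‖ ≤ M → y ∈ pr u '' KK := by
      intro y hy hyM
      rcases le_max_iff.1 hyM with h | h
      · exact ⟨y, KK_ball y h, pr_of_orth u y hy⟩
      · by_cases hu2 : u 2 = 0
        · rw [hu2] at h
          have : ‖y‖ ≤ h0 := by
            have : |(0 : ℝ)| / 2 = 0 := by simp
            rw [this] at h
            linarith
          exact ⟨y, KK_ball y this, pr_of_orth u y hy⟩
        · set c : ℝ := y 2 / u 2 with hc
          refine ⟨y - c • u, ?_, ?_⟩
          · have hx2 : (y - c • u) 2 = 0 := by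
              have : (y - c • u) 2 = y 2 - c * u 2 := by simp
              rw [this, hc]
              field_simp
              ring
            have hcb : |c| ≤ 1 / 2 := by
              rw [hc, abs_div, div_le_iff₀ (abs_pos.2 hu2)]
              have := abs_coord_le y 2
              linarith
            have hn : ‖y - c • u‖ ≤ 1 := by
              refine (norm_sub_le _ _).trans ?_
              rw [norm_smul, hu1, mul_one, Real.norm_eq_abs]
              have := abs_of_unit u hu1 2
              linarith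
            refine ⟨(abs_coord_le _ 0).trans hn, (abs_coord_le _ 1).trans hn, ?_⟩
            rw [hx2, abs_zero]
            exact hh.le
          · rw [sub_eq_add_neg, ← neg_smul, pr_add, pr_smul, pr_of_orth u y hy]
            have : pr u u = 0 := by
              unfold pr
              rw [real_inner_self_eq_norm_sq, hu1]
              simp
            rw [this]
            simp
    -- positivity of the area
    have hApos : A ≠ 0 := by
      have h1 := hA 0 1 zero_le_one
      rw [sub_zero, ENNReal.ofReal_one, one_mul] at h1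
      rw [← h1]
      have h2 : Metric.ball ((1 / 2 : ℝ) • u) (min M (1 / 2)) ⊆ pr u '' KK + rod u 0 1 := by
        intro x hx
        rw [Metric.mem_ball, dist_eq_norm] at hx
        have hx1 : ‖x - (1 / 2 : ℝ) • u‖ < M := lt_of_lt_of_le hx (min_le_left _ _)
        have hx2 : ‖x - (1 / 2 : ℝ) • u‖ < 1 / 2 := lt_of_lt_of_le hx (min_le_right _ _)
        have e1 : pr u x = pr u (x - (1 / 2 : ℝ) • u) := by
          rw [sub_eq_add_neg, ← neg_smul, pr_add, pr_smul]
          have : pr u u = 0 := by
            unfold pr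
            rw [real_inner_self_eq_norm_sq, hu1]
            simp
          rw [this]
          simp
        have h3 : pr u x ∈ pr u '' KK := by
          refine hsubr _ (inner_pr u hu1 x) ?_
          rw [e1]
          exact (norm_pr_le u hu1 _).trans hx1.le
        have h4 : |inner ℝ u (x - (1 / 2 : ℝ) • u)| ≤ 1 / 2 := by
          have := abs_real_inner_le_norm u (x - (1 / 2 : ℝ) • u)
          rw [hu1, one_mul] at this
          exact this.trans hx2.le
        rw [inner_sub_right, inner_smul_right, real_inner_self_eq_norm_sq, hu1, abs_le] at h4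
        refine ⟨pr u x, h3, (inner ℝ u x) • u, ⟨inner ℝ u x, ⟨?_, ?_⟩, rfl⟩, ?_⟩
        · linarith [h4.1]
        · linarith [h4.2]
        · show pr u x + (inner ℝ u x) • u = x
          unfold pr
          abel
      have h5 : 0 < volume (Metric.ball ((1 / 2 : ℝ) • u) (min M (1 / 2))) :=
        Metric.measure_ball_pos _ _ (lt_min hMpos (by norm_num))
      exact (lt_of_lt_of_le h5 (measure_mono h2)).ne'
    obtain ⟨hL0, hL1⟩ := limit_bounds u hu1 KK hKv hKc A hAfin hApos hA M hMpos hsubr 2
      (by norm_num) KK_norm L hL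
    set W := A.toReal with hWdef
    have hWpos : 0 < W := ENNReal.toReal_pos hApos hAfin
    have hWM : W ≤ 28 * M := by
      have h1 := ENNReal.toReal_mono ENNReal.ofReal_ne_top (KK_rod u)
      rw [ENNReal.toReal_ofReal (by positivity)] at h1
      have h2 := KK_vol
      have a0 := abs_of_unit u hu1 0
      have a1 := abs_of_unit u hu1 1
      have a2 := abs_nonneg (u 2)
      have b0 := abs_nonneg (u 0)
      have b1 := abs_nonneg (u 1)
      have m1 : h0 ≤ M := le_max_left _ _
      have m2 : |u 2| / 2 ≤ M := le_max_right _ _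
      have h3 : (2 + |u 0|) * (2 + |u 1|) ≤ 9 := by nlinarith
      have h4 : (2 + |u 0|) * (2 + |u 1|) * (2 * h0 + |u 2|) ≤ 9 * (2 * h0 + |u 2|) :=
        mul_le_mul_of_nonneg_right h3 (by positivity)
      linarith
    have hMh : 1 / 1000 ≤ M := le_max_left _ _
    rw [le_div_iff₀ (by positivity)]
    have hL2 : L ^ 2 ≤ (4 * W / (Real.pi * M)) ^ 2 := pow_le_pow_left₀ hL0.le hL1 2
    have h3pi : (3 : ℝ) < Real.pi := Real.pi_gt_three
    have key : 3 / 100000 * (4 * W / (Real.pi * M)) ^ 2 ≤ Real.pi * W := by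
      rw [div_pow, mul_div_assoc', div_le_iff₀ (by positivity)]
      have h27 : 27 ≤ Real.pi ^ 3 := by nlinarith [mul_pos hpi hpi]
      have e1 : 3 / 100000 * (4 * W) ^ 2 = (48 / 100000 * W) * W := by ring
      have e2 : Real.pi * W * (Real.pi * M) ^ 2 = (Real.pi ^ 3 * M ^ 2) * W := by ring
      rw [e1, e2]
      refine mul_le_mul_of_nonneg_right ?_ hWpos.le
      have h5 : 27 * M ^ 2 ≤ Real.pi ^ 3 * M ^ 2 := mul_le_mul_of_nonneg_right h27 (sq_nonneg _)
      nlinarith
    linarith [mul_le_mul_of_nonneg_left hL2 (by norm_num : (0 : ℝ) ≤ 3 / 100000)]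
  · rw [KK_vol, div_lt_iff₀ (by positivity)]
    have h4pi : Real.pi < 4 := Real.pi_lt_four
    unfold h0
    norm_num
    linarith

end Pool.Agent.Y506.IP
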