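import Pool.Agent.Y506.IP.Fub

/-!
# Bounds for the perimeter of the projections, and boxes
-/

set_option autoImplicit false

open MeasureTheory Set Filter Topology
open scoped Pointwise ENNReal

namespace Pool.Agent.Y506.IP

/-- the box `|x 0| ≤ a, |x 1| ≤ b, |x 2| ≤ c` -/
def Bx (a b c : ℝ) : Set E := {x | |x 0| ≤ a ∧ |x 1| ≤ b ∧ |x 2| ≤ c}

theorem vol_cbox (a b : Fin 3 → ℝ) :
    volume {x : E | ∀ i, x i ∈ Icc (a i) (b i)} = ∏ i, ENNReal.ofReal (b i - a i) := by
  have m2 := EuclideanSpace.volume_preserving_symm_measurableEquiv_toLp (Fin 3)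
  have h1 : {x : E | ∀ i, x i ∈ Icc (a i) (b i)} =
      (MeasurableEquiv.toLp 2 (Fin 3 → ℝ)).symm ⁻¹' (Set.Icc a b) := by
    ext x
    simp only [mem_preimage, mem_Icc, Pi.le_def]
    constructor
    · intro h
      exact ⟨fun i => (h i).1, fun i => (h i).2⟩
    · intro h i
      exact ⟨h.1 i, h.2 i⟩
  rw [h1, m2.measure_preimage_equiv, Real.volume_Icc_pi]

theorem vol_Bx (a b c : ℝ) (ha : 0 ≤ a) (hb : 0 ≤ b) (_ : 0 ≤ c) :
    volume (Bx a b c) = ENNReal.ofReal (8 * a * b * c) := by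
  have h1 : Bx a b c = {x : E | ∀ i, x i ∈ Icc (![-a, -b, -c] i) (![a, b, c] i)} := by
    ext x
    simp only [Bx, mem_ofPred_eq, Fin.forall_fin_succ, abs_le, mem_Icc]
    simp
  rw [h1, vol_cbox, Fin.prod_univ_three]
  simp only [Matrix.cons_val_zero, Matrix.cons_val_one, Matrix.cons_val]
  rw [← ENNReal.ofReal_mul (by linarith), ← ENNReal.ofReal_mul
    (mul_nonneg (by linarith) (by linarith))]
  congr 1
  ring

theorem isCompact_Bx (a b c : ℝ) : IsCompact (Bx a b c) := by
  have hcl : IsClosed (Bx a b c) := by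
    have : Bx a b c = {x : E | |x 0| ≤ a} ∩ ({x : E | |x 1| ≤ b} ∩ {x : E | |x 2| ≤ c}) := rfl
    rw [this]
    refine (isClosed_le (by fun_prop) (by fun_prop)).inter
      ((isClosed_le (by fun_prop) (by fun_prop)).inter (isClosed_le (by fun_prop) (by fun_prop)))
  refine (isCompact_closedBall (0 : E) (|a| + |b| + |c|)).of_isClosed_subset hcl ?_
  intro x hx
  rw [mem_closedBall_zero_iff, EuclideanSpace.norm_eq, Fin.sum_univ_three]
  obtain ⟨h0, h1, h2⟩ := hx
  have h0' := h0.trans (le_abs_self a)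
  have h1' := h1.trans (le_abs_self b)
  have h2' := h2.trans (le_abs_self c)
  refine Real.sqrt_le_iff.2 ⟨by positivity, ?_⟩
  simp only [Real.norm_eq_abs]
  have e0 := abs_nonneg (x 0)
  have e1 := abs_nonneg (x 1)
  have e2 := abs_nonneg (x 2)
  nlinarith [abs_nonneg a, abs_nonneg b, abs_nonneg c]

theorem convex_Bx (a b c : ℝ) : Convex ℝ (Bx a b c) := by
  have key : ∀ (i : Fin 3) (r : ℝ), Convex ℝ {x : E | |x i| ≤ r} := by
    intro i r x hx y hy s t hs ht hst
    simp only [mem_ofPred_eq] at hx hy ⊢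
    have : (s • x + t • y) i = s * x i + t * y i := by simp
    rw [this]
    calc |s * x i + t * y i| ≤ |s * x i| + |t * y i| := abs_add_le _ _
      _ = s * |x i| + t * |y i| := by rw [abs_mul, abs_mul, abs_of_nonneg hs, abs_of_nonneg ht]
      _ ≤ s * r + t * r := by gcongr
      _ = r := by rw [← add_mul, hst, one_mul]
  have : Bx a b c = {x : E | |x 0| ≤ a} ∩ ({x : E | |x 1| ≤ b} ∩ {x : E | |x 2| ≤ c}) := rfl
  rw [this]
  exact (key 0 a).inter ((key 1 b).inter (key 2 c))

theorem abs_coord_le (x : E) (i : Fin 3) : |x i| ≤ ‖x‖ := by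
  have := PiLp.norm_apply_le x i
  simpa using this

/-- one clamped coordinate -/
theorem clamp_mem (x : E) (i : Fin 3) (a t : ℝ) (ha : 0 ≤ a) (ht : 0 ≤ t) (hx : |x i| ≤ a + t) :
    ∃ y z : E, x = y + z ∧ ‖z‖ ≤ t ∧ |y i| ≤ a ∧ ∀ j, j ≠ i → y j = x j := by
  set c : ℝ := max (-a) (min a (x i)) with hc
  obtain ⟨hx1, hx2⟩ := abs_le.1 hx
  have h1 : |c| ≤ a := by
    rw [abs_le]
    exact ⟨le_max_left _ _, max_le (by linarith) (min_le_left _ _)⟩
  have h2 : |x i - c| ≤ t := by
    rw [abs_le, hc]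
    rcases le_total a (x i) with h | h
    · rw [min_eq_left h, max_eq_right (by linarith)]
      constructor <;> linarith
    · rw [min_eq_right h]
      rcases le_total (-a) (x i) with h' | h'
      · rw [max_eq_right h']
        constructor <;> linarith
      · rw [max_eq_left h']
        constructor <;> linarith
  refine ⟨x - EuclideanSpace.single i (x i - c), EuclideanSpace.single i (x i - c), by abel, ?_,
    ?_, ?_⟩
  · simpa using h2
  · simpa using h1
  · intro j hj
    simp [hj]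

theorem Bx_add_ball_sub (a b c t : ℝ) :
    Bx a b c + Metric.closedBall (0 : E) t ⊆ Bx (a + t) (b + t) (c + t) := by
  rintro _ ⟨x, hx, z, hz, rfl⟩
  rw [mem_closedBall_zero_iff] at hz
  obtain ⟨h0, h1, h2⟩ := hx
  have key : ∀ i, |(x + z) i| ≤ |x i| + t := by
    intro i
    have : (x + z) i = x i + z i := rfl
    rw [this]
    exact (abs_add_le _ _).trans (by linarith [(abs_coord_le z i).trans hz])
  exact ⟨(key 0).trans (by linarith), (key 1).trans (by linarith), (key 2).trans (by linarith)⟩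

theorem three_sub (a b c t : ℝ) (ha : 0 ≤ a) (hb : 0 ≤ b) (hc : 0 ≤ c) (ht : 0 ≤ t) :
    Bx (a + t) b c ∪ Bx a (b + t) c ∪ Bx a b (c + t) ⊆
      Bx a b c + Metric.closedBall (0 : E) t := by
  rintro x ((⟨h0, h1, h2⟩ | ⟨h0, h1, h2⟩) | ⟨h0, h1, h2⟩)
  · obtain ⟨y, z, hxy, hz, hy, hj⟩ := clamp_mem x 0 a t ha ht h0
    refine ⟨y, ⟨hy, ?_, ?_⟩, z, mem_closedBall_zero_iff.2 hz, hxy.symm⟩
    · rw [hj 1 (by decide)]; exact h1
    · rw [hj 2 (by decide)]; exact h2
  · obtain ⟨y, z, hxy, hz, hy, hj⟩ := clamp_mem x 1 b t hb ht h1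
    refine ⟨y, ⟨?_, hy, ?_⟩, z, mem_closedBall_zero_iff.2 hz, hxy.symm⟩
    · rw [hj 0 (by decide)]; exact h0
    · rw [hj 2 (by decide)]; exact h2
  · obtain ⟨y, z, hxy, hz, hy, hj⟩ := clamp_mem x 2 c t hc ht h2
    refine ⟨y, ⟨?_, ?_, hy⟩, z, mem_closedBall_zero_iff.2 hz, hxy.symm⟩
    · rw [hj 0 (by decide)]; exact h0
    · rw [hj 1 (by decide)]; exact h1

theorem Bx_inter (a b c a' b' c' : ℝ) :
    Bx a b c ∩ Bx a' b' c' = Bx (min a a') (min b b') (min c c') := by
  ext x
  simp only [Bx, mem_inter_iff, mem_ofPred_eq, le_min_iff]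
  tauto

theorem vol_three (a b c t : ℝ) (ha : 0 ≤ a) (hb : 0 ≤ b) (hc : 0 ≤ c) (ht : 0 ≤ t) :
    ENNReal.ofReal (8 * a * b * c + 8 * t * (b * c + a * c + a * b)) ≤
      volume (Bx a b c + Metric.closedBall (0 : E) t) := by
  refine le_trans ?_ (measure_mono (three_sub a b c t ha hb hc ht))
  have i1 : Bx (a + t) b c ∩ Bx a (b + t) c = Bx a b c := by
    rw [Bx_inter, min_eq_right (by linarith), min_eq_left (by linarith), min_self]
  have i2 : (Bx (a + t) b c ∪ Bx a (b + t) c) ∩ Bx a b (c + t) = Bx a b c := by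
    rw [union_inter_distrib_right, Bx_inter, Bx_inter, min_eq_right (by linarith : a ≤ a + t),
      min_eq_left (by linarith : c ≤ c + t), min_eq_right (by linarith : b ≤ b + t), min_self,
      min_self, union_self]
  have m1 := measure_union_add_inter (μ := (volume : Measure E)) (Bx (a + t) b c)
    (isCompact_Bx a (b + t) c).measurableSet
  have m2 := measure_union_add_inter (μ := (volume : Measure E)) (Bx (a + t) b c ∪ Bx a (b + t) c)
    (isCompact_Bx a b (c + t)).measurableSet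
  rw [i1, vol_Bx (a + t) b c (by linarith) hb hc, vol_Bx a (b + t) c ha (by linarith) hc,
    vol_Bx a b c ha hb hc] at m1
  rw [i2, vol_Bx a b (c + t) ha hb (by linarith), vol_Bx a b c ha hb hc] at m2
  have p0 : 0 ≤ 8 * a * b * c := by positivity
  have key : ENNReal.ofReal (8 * a * b * c + 8 * t * (b * c + a * c + a * b)) +
      (ENNReal.ofReal (8 * a * b * c) + ENNReal.ofReal (8 * a * b * c)) =
      volume (Bx (a + t) b c ∪ Bx a (b + t) c ∪ Bx a b (c + t)) +
      (ENNReal.ofReal (8 * a * b * c) + ENNReal.ofReal (8 * a * b * c)) := by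
    rw [← add_assoc (volume _), m2,
      add_right_comm (volume (Bx (a + t) b c ∪ Bx a (b + t) c)), m1, ← ENNReal.ofReal_add p0 p0,
      ← ENNReal.ofReal_add (by positivity) (by positivity),
      ← ENNReal.ofReal_add (by positivity) (by positivity),
      ← ENNReal.ofReal_add (by positivity) (by positivity)]
    congr 1
    ring
  have hfin : ENNReal.ofReal (8 * a * b * c) + ENNReal.ofReal (8 * a * b * c) ≠ ⊤ := by
    simp
  exact ((ENNReal.add_left_inj hfin).1 key).le

end Pool.Agent.Y506.IP
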