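import Mathlib

/-!
# Fubini along a direction, volumes of prisms over projections
-/

set_option autoImplicit false

open MeasureTheory Set
open scoped Pointwise ENNReal

namespace Pool.Agent.Y506.IP

/-- `ℝ³` -/
abbrev E : Type := EuclideanSpace ℝ (Fin 3)

/-- the orthogonal projection along `u` -/
noncomputable def pr (u : E) (x : E) : E := x - (inner ℝ u x) • u

theorem exists_fub (u : E) (hu : ‖u‖ = 1) :
    ∃ e : E ≃ᵐ (ℝ × (Fin 2 → ℝ)), MeasurePreserving e (volume : Measure E) (volume.prod volume) ∧
      Continuous e ∧ Continuous e.symm ∧ (∀ x y : E, e (x + y) = e x + e y) ∧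
      (∀ (c : ℝ) (x : E), e (c • x) = c • e x) ∧ e u = (1, 0) ∧ (∀ x, (e x).1 = inner ℝ u x) := by
  have hcard : Module.finrank ℝ E = Fintype.card (Fin 3) := by simp
  have horth : Orthonormal ℝ (({0} : Set (Fin 3)).domRestrict (fun _ => u)) := by
    refine ⟨fun i => by simpa using hu, ?_⟩
    intro i j hij
    exact absurd (Subsingleton.elim i j) hij
  obtain ⟨b, hb⟩ := horth.exists_orthonormalBasis_extension_of_card_eq hcard
  have hb0 : b 0 = u := hb 0 rfl
  let e1 : E ≃ᵐ EuclideanSpace ℝ (Fin 3) := b.repr.toHomeomorph.toMeasurableEquiv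
  let e2 : EuclideanSpace ℝ (Fin 3) ≃ᵐ (Fin 3 → ℝ) := (MeasurableEquiv.toLp 2 (Fin 3 → ℝ)).symm
  let e3 : (Fin 3 → ℝ) ≃ᵐ ℝ × (Fin 2 → ℝ) := MeasurableEquiv.piFinSuccAbove (fun _ => ℝ) 0
  have hfst : ∀ x, (e3 (e2 (e1 x))).1 = inner ℝ u x := by
    intro x
    show b.repr x 0 = _
    rw [b.repr_apply_apply, hb0]
  have hsnd : ∀ x (i : Fin 2), (e3 (e2 (e1 x))).2 i = b.repr x i.succ := by
    intro x i
    rfl
  refine ⟨(e1.trans e2).trans e3, ?_, ?_, ?_, ?_, ?_, ?_, ?_⟩
  · have m1 : MeasurePreserving e1 volume volume := b.measurePreserving_repr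
    have m2 : MeasurePreserving e2 volume volume :=
      EuclideanSpace.volume_preserving_symm_measurableEquiv_toLp (Fin 3)
    have m3 : MeasurePreserving e3 volume volume :=
      volume_preserving_piFinSuccAbove (fun _ => ℝ) 0
    exact (m3.comp m2).comp m1
  · show Continuous fun x => e3 (e2 (e1 x))
    refine Continuous.prodMk ?_ ?_
    · have : (fun x => (e3 (e2 (e1 x))).1) = fun x => inner ℝ u x := funext hfst
      show Continuous fun x => (e3 (e2 (e1 x))).1
      rw [this]
      fun_prop
    · refine continuous_pi fun i => ?_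
      show Continuous fun x => (e3 (e2 (e1 x))).2 i
      have : (fun x => (e3 (e2 (e1 x))).2 i) = fun x => b.repr x i.succ := funext fun x => hsnd x i
      rw [this]
      have h1 : Continuous b.repr := b.repr.continuous
      fun_prop
  · show Continuous fun z => e1.symm (e2.symm (e3.symm z))
    have h3 : Continuous fun z : ℝ × (Fin 2 → ℝ) => e3.symm z := by
      show Continuous fun z : ℝ × (Fin 2 → ℝ) => (Fin.insertNthEquiv (fun _ => ℝ) 0) z
      refine continuous_pi fun i => ?_
      refine Fin.cases ?_ (fun j => ?_) i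
      · simpa using continuous_fst
      · simp only [Fin.insertNthEquiv_apply, Fin.insertNth_zero, Fin.cons_succ]
        exact (continuous_apply j).comp continuous_snd
    have h2 : Continuous fun z : Fin 3 → ℝ => e2.symm z := by
      show Continuous fun z : Fin 3 → ℝ => WithLp.toLp 2 z
      exact PiLp.continuous_toLp 2 _
    have h1 : Continuous fun z : EuclideanSpace ℝ (Fin 3) => e1.symm z := b.repr.symm.continuous
    exact h1.comp (h2.comp h3)
  · intro x y
    show e3 (e2 (e1 (x + y))) = e3 (e2 (e1 x)) + e3 (e2 (e1 y))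
    refine Prod.ext ?_ ?_
    · rw [Prod.fst_add, hfst, hfst, hfst, inner_add_right]
    · ext i
      rw [Prod.snd_add, Pi.add_apply, hsnd, hsnd, hsnd, map_add]
      rfl
  · intro c x
    show e3 (e2 (e1 (c • x))) = c • e3 (e2 (e1 x))
    refine Prod.ext ?_ ?_
    · rw [Prod.smul_fst, hfst, hfst, inner_smul_right]
      rfl
    · ext i
      rw [Prod.smul_snd, Pi.smul_apply, hsnd, hsnd, map_smul]
      rfl
  · show e3 (e2 (e1 u)) = _
    refine Prod.ext ?_ ?_
    · rw [hfst, real_inner_self_eq_norm_sq, hu]
      norm_num
    · ext i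
      rw [hsnd]
      have : b.repr u = EuclideanSpace.single 0 1 := by
        rw [← hb0, b.repr_self]
      rw [this]
      simp
  · exact hfst

/-- area of the projection along `u`, as the volume of a prism of height one -/
noncomputable def area (K : Set E) (u : E) : ℝ≥0∞ := volume (pr u '' K + segment ℝ (0 : E) u)

theorem mem_seg (u : E) (x : E) : x ∈ segment ℝ (0 : E) u ↔ ∃ s ∈ Icc (0 : ℝ) 1, x = s • u := by
  rw [segment_eq_image]
  constructor
  · rintro ⟨s, hs, rfl⟩
    exact ⟨s, hs, by simp⟩
  · rintro ⟨s, hs, rfl⟩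
    exact ⟨s, hs, by simp⟩

/-- the segment from `a u` to `b u` -/
def rod (u : E) (a b : ℝ) : Set E := (fun s : ℝ => s • u) '' Icc a b

theorem seg_eq_rod (u : E) : segment ℝ (0 : E) u = rod u 0 1 := by
  ext x
  rw [mem_seg]
  constructor
  · rintro ⟨s, hs, rfl⟩
    exact ⟨s, hs, rfl⟩
  · rintro ⟨s, hs, rfl⟩
    exact ⟨s, hs, rfl⟩

theorem isCompact_rod (u : E) (a b : ℝ) : IsCompact (rod u a b) :=
  isCompact_Icc.image (by fun_prop)

theorem continuous_pr (u : E) : Continuous (pr u) := by
  unfold pr
  fun_prop

theorem vol_fib (u : E) (hu : ‖u‖ = 1) (K : Set E) (hK : Convex ℝ K) (hc : IsCompact K) :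
    ∃ (A : ℝ≥0∞), (∀ a b : ℝ, a ≤ b → volume (pr u '' K + rod u a b) = ENNReal.ofReal (b - a) * A) ∧
      volume (K + rod u 0 1) = volume K + A := by
  obtain ⟨e, hm, hcont, hcont', hadd, hsmul, heu, hfst⟩ := exists_fub u hu
  have key : ∀ S : Set E, IsCompact S →
      volume S = ∫⁻ y : Fin 2 → ℝ, volume {s : ℝ | e.symm (s, y) ∈ S} := by
    intro S hS
    have hSm := hS.measurableSet
    have h1 : volume S = (volume.prod volume) (e.symm ⁻¹' S) := by
      have h2 := hm.measure_preimage_equiv (e.symm ⁻¹' S)
      rw [← h2]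
      congr 1
      ext x
      simp
    rw [h1, Measure.prod_apply_symm (e.symm.measurable hSm)]
    rfl
  -- structure of the fibres
  have hsymm : ∀ s t y, e.symm (s + t, y) = e.symm (s, y) + t • u := by
    intro s t y
    rw [e.symm_apply_eq, hadd, hsmul, heu, e.apply_symm_apply]
    ext <;> simp
  have hpr : ∀ s y, pr u (e.symm (s, y)) = e.symm (0, y) := by
    intro s y
    have h1 : inner ℝ u (e.symm (s, y)) = s := by
      rw [← hfst, e.apply_symm_apply]
    unfold pr
    rw [h1]
    have := hsymm 0 s y
    rw [zero_add] at this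
    rw [this]
    abel
  set I : (Fin 2 → ℝ) → Set ℝ := fun y => {s : ℝ | e.symm (s, y) ∈ K} with hI
  have hIc : ∀ y, IsCompact (I y) := by
    intro y
    have h1 : IsClosed (I y) := hc.isClosed.preimage (hcont'.comp (by fun_prop))
    have h2 : I y ⊆ (fun x : E => inner ℝ u x) '' K := by
      intro s hs
      refine ⟨e.symm (s, y), hs, ?_⟩
      show inner ℝ u (e.symm (s, y)) = s
      rw [← hfst, e.apply_symm_apply]
    exact (hc.image (by fun_prop)).of_isClosed_subset h1 h2
  have hIv : ∀ y, Convex ℝ (I y) := by
    intro y s hs t ht a b ha hb hab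
    show e.symm (a • s + b • t, y) ∈ K
    have h1 : e.symm (a • s + b • t, y) = a • e.symm (s, y) + b • e.symm (t, y) := by
      rw [e.symm_apply_eq, hadd, hsmul, hsmul, e.apply_symm_apply, e.apply_symm_apply]
      ext
      · simp
      · simp only [Prod.snd_add, Prod.smul_snd, ← add_smul, hab, one_smul]
    rw [h1]
    exact hK hs ht ha hb hab
  -- the set of nonempty fibres
  set N : Set (Fin 2 → ℝ) := {y | (I y).Nonempty} with hN
  have hNc : IsCompact N := by
    have : N = (fun x : E => (e x).2) '' K := by
      ext y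
      constructor
      · rintro ⟨s, hs⟩
        exact ⟨e.symm (s, y), hs, by simp⟩
      · rintro ⟨x, hx, rfl⟩
        refine ⟨(e x).1, ?_⟩
        show e.symm ((e x).1, (e x).2) ∈ K
        simpa using hx
    rw [this]
    exact hc.image (by fun_prop)
  refine ⟨volume N, ?_, ?_⟩
  · intro a b hab
    have hcomp : IsCompact (pr u '' K + rod u a b) :=
      (hc.image (continuous_pr u)).add (isCompact_rod u a b)
    rw [key _ hcomp]
    have h1 : ∀ y, volume {s : ℝ | e.symm (s, y) ∈ pr u '' K + rod u a b} =
        N.indicator (fun _ => ENNReal.ofReal (b - a)) y := by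
      intro y
      by_cases hy : y ∈ N
      · rw [indicator_of_mem hy]
        have : {s : ℝ | e.symm (s, y) ∈ pr u '' K + rod u a b} = Icc a b := by
          ext s
          constructor
          · rintro ⟨p, ⟨x, hx, rfl⟩, q, ⟨r, hr, rfl⟩, hpq⟩
            have h2 : inner ℝ u (pr u x + r • u) = r := by
              unfold pr
              rw [inner_add_right, inner_sub_right, inner_smul_right, inner_smul_right,
                real_inner_self_eq_norm_sq, hu]
              ring
            have h3 : inner ℝ u (e.symm (s, y)) = s := by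
              rw [← hfst, e.apply_symm_apply]
            have h4 : s = r := by
              rw [← h3, ← hpq]
              exact h2
            rw [h4]
            exact hr
          · intro hs
            obtain ⟨r, hr⟩ := hy
            refine ⟨e.symm (0, y), ⟨e.symm (r, y), hr, hpr r y⟩, s • u, ⟨s, hs, rfl⟩, ?_⟩
            show e.symm (0, y) + s • u = e.symm (s, y)
            rw [← hsymm, zero_add]
        rw [this, Real.volume_Icc]
      · rw [indicator_of_notMem hy]
        have : {s : ℝ | e.symm (s, y) ∈ pr u '' K + rod u a b} = ∅ := by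
          ext s
          simp only [mem_ofPred_eq, mem_empty_iff_false, iff_false]
          rintro ⟨p, ⟨x, hx, rfl⟩, q, ⟨r, hr, rfl⟩, hpq⟩
          apply hy
          have hx' : e.symm ((e x).1, (e x).2) = x := by simp
          have h5 : pr u x = e.symm (0, (e x).2) := by
            rw [← hpr (e x).1, hx']
          have h6 : e.symm (r, (e x).2) = e.symm (s, y) := by
            rw [← hpq]
            show _ = pr u x + r • u
            rw [h5, ← hsymm, zero_add]
          have h7 := e.symm.injective h6
          have h8 : (e x).2 = y := (Prod.ext_iff.1 h7).2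
          refine ⟨(e x).1, ?_⟩
          show e.symm ((e x).1, y) ∈ K
          rw [← h8, hx']
          exact hx
        rw [this, measure_empty]
    rw [lintegral_congr h1, lintegral_indicator hNc.measurableSet, lintegral_const]
    simp
  · have hcomp : IsCompact (K + rod u 0 1) := hc.add (isCompact_rod u 0 1)
    rw [key _ hcomp, key _ hc]
    have h1 : ∀ y, volume {s : ℝ | e.symm (s, y) ∈ K + rod u 0 1} =
        volume (I y) + N.indicator (fun _ => 1) y := by
      intro y
      have h2 : {s : ℝ | e.symm (s, y) ∈ K + rod u 0 1} = I y + Icc (0 : ℝ) 1 := by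
        ext s
        constructor
        · rintro ⟨x, hx, q, ⟨r, hr, rfl⟩, hpq⟩
          refine ⟨s - r, ?_, r, hr, by simp⟩
          show e.symm (s - r, y) ∈ K
          have : e.symm (s - r, y) = x := by
            rw [sub_eq_add_neg, hsymm, ← hpq]
            show x + r • u + (-r) • u = x
            module
          rw [this]
          exact hx
        · rintro ⟨p, hp, r, hr, rfl⟩
          refine ⟨e.symm (p, y), hp, r • u, ⟨r, hr, rfl⟩, ?_⟩
          exact (hsymm _ _ _).symm
      rw [h2]
      by_cases hy : y ∈ N
      · rw [indicator_of_mem hy]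
        have hord := (hIv y).ordConnected
        have h3 := eq_Icc_of_connected_compact ⟨hy, (hIv y).isPreconnected⟩ (hIc y)
        have hle : sInf (I y) ≤ sSup (I y) := by
          obtain ⟨r, hr⟩ := hy
          exact (csInf_le (hIc y).bddBelow hr).trans (le_csSup (hIc y).bddAbove hr)
        rw [h3, Icc_add_Icc hle zero_le_one, Real.volume_Icc, Real.volume_Icc,
          ← ENNReal.ofReal_one, ← ENNReal.ofReal_add (by linarith) zero_le_one]
        congr 1
        ring
      · rw [indicator_of_notMem hy]
        have : I y = ∅ := not_nonempty_iff_eq_empty.1 hy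
        rw [this]
        simp
    have hmeas : Measurable fun y => volume (I y) := by
      have h5 : MeasurableSet (e.symm ⁻¹' K) := e.symm.measurable hc.measurableSet
      exact measurable_measure_prodMk_right h5
    rw [lintegral_congr h1, lintegral_add_left hmeas, lintegral_indicator hNc.measurableSet,
      lintegral_const, Measure.restrict_apply_univ, one_mul]

end Pool.Agent.Y506.IP
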