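import Pool.Agent.Y506.IP.Box

/-!
# Bounds for the parallel bodies of projections
-/

set_option autoImplicit false

open MeasureTheory Set Filter Topology
open scoped Pointwise ENNReal

namespace Pool.Agent.Y506.IP

theorem inner_pr (u : E) (hu : ‖u‖ = 1) (x : E) : inner ℝ u (pr u x) = 0 := by
  unfold pr
  rw [inner_sub_right, inner_smul_right, real_inner_self_eq_norm_sq, hu]
  ring

theorem norm_pr_le (u : E) (hu : ‖u‖ = 1) (x : E) : ‖pr u x‖ ≤ ‖x‖ := by
  have h1 : ‖pr u x‖ ^ 2 ≤ ‖x‖ ^ 2 := by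
    have h2 : ‖pr u x‖ ^ 2 = ‖x‖ ^ 2 - (inner ℝ u x) ^ 2 := by
      unfold pr
      rw [norm_sub_sq_real, norm_smul, hu, inner_smul_right, real_inner_comm]
      rw [Real.norm_eq_abs, mul_one, sq_abs]
      ring
    rw [h2]
    nlinarith [sq_nonneg (inner ℝ u x)]
  exact (pow_le_pow_iff_left₀ (norm_nonneg _) (norm_nonneg _) two_ne_zero).1 h1

theorem pr_add (u x y : E) : pr u (x + y) = pr u x + pr u y := by
  unfold pr
  rw [inner_add_right]
  module

theorem pr_smul (u : E) (c : ℝ) (x : E) : pr u (c • x) = c • pr u x := by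
  unfold pr
  rw [inner_smul_right]
  module

theorem pr_of_orth (u x : E) (h : inner ℝ u x = 0) : pr u x = x := by
  unfold pr
  rw [h]
  simp

theorem convex_pr (u : E) (K : Set E) (hK : Convex ℝ K) : Convex ℝ (pr u '' K) := by
  rintro _ ⟨x, hx, rfl⟩ _ ⟨y, hy, rfl⟩ a b ha hb hab
  exact ⟨a • x + b • y, hK hx hy ha hb hab, by rw [pr_add, pr_smul, pr_smul]⟩

/-- volumes of scaled prisms -/
theorem vol_scaled (u : E) (L : Set E) (A : ℝ≥0∞)
    (hA : ∀ a b : ℝ, a ≤ b → volume (L + rod u a b) = ENNReal.ofReal (b - a) * A)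
    (c : ℝ) (hc : 0 < c) (a b : ℝ) (hab : a ≤ b) :
    volume (c • L + rod u a b) = ENNReal.ofReal (c ^ 2 * (b - a)) * A := by
  have h1 : c • L + rod u a b = c • (L + rod u (a / c) (b / c)) := by
    rw [smul_add]
    congr 1
    ext x
    constructor
    · rintro ⟨s, hs, rfl⟩
      refine ⟨(s / c) • u, ⟨s / c, ⟨?_, ?_⟩, rfl⟩, ?_⟩
      · exact div_le_div_of_nonneg_right hs.1 hc.le
      · exact div_le_div_of_nonneg_right hs.2 hc.le
      · show c • (s / c) • u = s • u
        rw [smul_smul]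
        congr 1
        field_simp
    · rintro ⟨_, ⟨s, hs, rfl⟩, rfl⟩
      refine ⟨c * s, ⟨?_, ?_⟩, ?_⟩
      · have := (div_le_iff₀ hc).1 hs.1
        linarith
      · have := (le_div_iff₀ hc).1 hs.2
        linarith
      · show (c * s) • u = c • s • u
        rw [smul_smul]
  rw [h1, Measure.addHaar_smul, hA _ _ (div_le_div_of_nonneg_right hab hc.le), ← mul_assoc,
    ← ENNReal.ofReal_mul (abs_nonneg _)]
  congr 2
  have h3 : Module.finrank ℝ E = 3 := by simp
  rw [h3, abs_of_pos (by positivity)]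
  field_simp

theorem upper (u : E) (hu : ‖u‖ = 1) (K : Set E) (hK : Convex ℝ K) (A : ℝ≥0∞)
    (hA : ∀ a b : ℝ, a ≤ b → volume (pr u '' K + rod u a b) = ENNReal.ofReal (b - a) * A)
    (r : ℝ) (hr : 0 < r) (hsub : ∀ y : E, inner ℝ u y = 0 → ‖y‖ ≤ r → y ∈ pr u '' K)
    (t : ℝ) (ht : 0 < t) :
    volume (pr u '' K + Metric.closedBall (0 : E) t) ≤
      ENNReal.ofReal ((1 + t / r) ^ 2 * (2 * t)) * A := by
  have h1 : pr u '' K + Metric.closedBall (0 : E) t ⊆ (1 + t / r) • (pr u '' K) + rod u (-t) t := by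
    rintro _ ⟨y, hy, b, hb, rfl⟩
    rw [mem_closedBall_zero_iff] at hb
    refine ⟨y + pr u b, ?_, (inner ℝ u b) • u, ⟨inner ℝ u b, ?_, rfl⟩, ?_⟩
    · rw [(convex_pr u K hK).add_smul zero_le_one (by positivity), one_smul]
      refine ⟨y, hy, pr u b, ⟨(r / t) • pr u b, hsub _ ?_ ?_, ?_⟩, rfl⟩
      · rw [inner_smul_right, inner_pr u hu, mul_zero]
      · rw [norm_smul, Real.norm_eq_abs, abs_of_pos (by positivity)]
        have := (norm_pr_le u hu b).trans hb
        calc r / t * ‖pr u b‖ ≤ r / t * t := by gcongr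
          _ = r := by field_simp
      · show (t / r) • (r / t) • pr u b = pr u b
        rw [smul_smul]
        have : t / r * (r / t) = 1 := by field_simp
        rw [this, one_smul]
    · have h2 : |inner ℝ u b| ≤ t := by
        have := abs_real_inner_le_norm u b
        rw [hu, one_mul] at this
        exact this.trans hb
      exact abs_le.1 h2
    · show y + pr u b + (inner ℝ u b) • u = y + b
      unfold pr
      abel
  refine (measure_mono h1).trans ?_
  rw [vol_scaled u _ A hA (1 + t / r) (by positivity) (-t) t (by linarith)]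
  apply le_of_eq
  congr 2
  ring

theorem lower (u : E) (hu : ‖u‖ = 1) (K : Set E) (hc : IsCompact K)
    (A : ℝ≥0∞) (hAfin : A ≠ ⊤)
    (hA : ∀ a b : ℝ, a ≤ b → volume (pr u '' K + rod u a b) = ENNReal.ofReal (b - a) * A)
    (R : ℝ) (hR : 0 < R) (hsub : ∀ x ∈ K, ‖x‖ ≤ R) (t : ℝ) (ht : 0 < t) :
    ENNReal.ofReal (t * (1 + (1 + t / (2 * R)) ^ 2)) * A ≤
      volume (pr u '' K + Metric.closedBall (0 : E) t) := by
  set H : Set E := {x | |inner ℝ u x| ≤ t / 2} with hH
  have hHm : MeasurableSet H := by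
    have : IsClosed H := isClosed_le (by fun_prop) (by fun_prop)
    exact this.measurableSet
  have hin : ∀ (y : E) (s : ℝ), inner ℝ u (pr u y + s • u) = s := by
    intro y s
    rw [inner_add_right, inner_pr u hu, inner_smul_right, real_inner_self_eq_norm_sq, hu]
    ring
  set S : Set E := pr u '' K + Metric.closedBall (0 : E) t with hS
  have hnorm : ∀ s : ℝ, ‖s • u‖ = |s| := by
    intro s
    rw [norm_smul, hu, mul_one, Real.norm_eq_abs]
  -- first part
  have p1 : (1 + t / (2 * R)) • (pr u '' K) + rod u (-(t / 2)) (t / 2) ⊆ S ∩ H := by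
    rintro _ ⟨_, ⟨_, ⟨x, hx, rfl⟩, rfl⟩, _, ⟨s, hs, rfl⟩, rfl⟩
    have hs' : |s| ≤ t / 2 := abs_le.2 hs
    constructor
    · refine ⟨pr u x, ⟨x, hx, rfl⟩, (t / (2 * R)) • pr u x + s • u, ?_, ?_⟩
      · rw [mem_closedBall_zero_iff]
        refine (norm_add_le _ _).trans ?_
        rw [hnorm, norm_smul, Real.norm_eq_abs, abs_of_pos (by positivity)]
        have h1 := (norm_pr_le u hu x).trans (hsub x hx)
        have h2 : t / (2 * R) * ‖pr u x‖ ≤ t / 2 := by
          calc t / (2 * R) * ‖pr u x‖ ≤ t / (2 * R) * R := by gcongr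
            _ = t / 2 := by field_simp
        linarith
      · show pr u x + ((t / (2 * R)) • pr u x + s • u) = (1 + t / (2 * R)) • pr u x + s • u
        module
    · show |inner ℝ u ((1 + t / (2 * R)) • pr u x + s • u)| ≤ t / 2
      rw [← pr_smul, hin]
      exact hs'
  have v1 : ENNReal.ofReal (t * (1 + t / (2 * R)) ^ 2) * A ≤ volume (S ∩ H) := by
    refine le_trans (le_of_eq ?_) (measure_mono p1)
    rw [vol_scaled u _ A hA (1 + t / (2 * R)) (by positivity) _ _ (by linarith)]
    congr 2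
    ring
  -- second part
  set P : Set E := pr u '' K + rod u (-t) t with hP
  have p2 : P ⊆ S := by
    rintro _ ⟨y, hy, _, ⟨s, hs, rfl⟩, rfl⟩
    refine ⟨y, hy, s • u, ?_, rfl⟩
    rw [mem_closedBall_zero_iff, hnorm]
    exact abs_le.2 hs
  have p3 : P ∩ H ⊆ pr u '' K + rod u (-(t / 2)) (t / 2) := by
    rintro _ ⟨⟨_, ⟨x, hx, rfl⟩, _, ⟨s, hs, rfl⟩, rfl⟩, h⟩
    have h' : |inner ℝ u (pr u x + s • u)| ≤ t / 2 := h
    rw [hin] at h'
    exact ⟨pr u x, ⟨x, hx, rfl⟩, s • u, ⟨s, abs_le.1 h', rfl⟩, rfl⟩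
  have v2 : ENNReal.ofReal t * A ≤ volume (S \ H) := by
    refine le_trans ?_ (measure_mono (diff_subset_diff_left p2))
    have h1 := measure_inter_add_diff (μ := (volume : Measure E)) P hHm
    have h2 : volume P = ENNReal.ofReal (2 * t) * A := by
      rw [hP, hA _ _ (by linarith)]
      congr 2
      ring
    have h3 : volume (P ∩ H) ≤ ENNReal.ofReal t * A := by
      refine (measure_mono p3).trans (le_of_eq ?_)
      rw [hA _ _ (by linarith)]
      congr 2
      ring
    have h4 : ENNReal.ofReal (2 * t) * A = ENNReal.ofReal t * A + ENNReal.ofReal t * A := by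
      rw [← add_mul, ← ENNReal.ofReal_add ht.le ht.le]
      congr 2
      ring
    rw [h2, h4] at h1
    have h5 : ENNReal.ofReal t * A + ENNReal.ofReal t * A ≤
        ENNReal.ofReal t * A + volume (P \ H) := by
      rw [← h1]
      gcongr
    exact (ENNReal.add_le_add_iff_left (ENNReal.mul_ne_top ENNReal.ofReal_ne_top hAfin)).1 h5
  have h6 := measure_inter_add_diff (μ := (volume : Measure E)) S hHm
  rw [← h6]
  refine le_trans (le_of_eq ?_) (add_le_add v1 v2)
  rw [← add_mul, ← ENNReal.ofReal_add (by positivity) ht.le]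
  congr 2
  ring

/-- bounds for the limit -/
theorem limit_bounds (u : E) (hu : ‖u‖ = 1) (K : Set E) (hK : Convex ℝ K) (hc : IsCompact K)
    (A : ℝ≥0∞) (hAfin : A ≠ ⊤) (hApos : A ≠ 0)
    (hA : ∀ a b : ℝ, a ≤ b → volume (pr u '' K + rod u a b) = ENNReal.ofReal (b - a) * A)
    (r : ℝ) (hr : 0 < r) (hsubr : ∀ y : E, inner ℝ u y = 0 → ‖y‖ ≤ r → y ∈ pr u '' K)
    (R : ℝ) (hR : 0 < R) (hsub : ∀ x ∈ K, ‖x‖ ≤ R) (L : ℝ)
    (hL : Tendsto (fun t : ℝ =>
        ((volume (pr u '' K + Metric.closedBall (0 : E) t)).toReal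
          - 2 * t * A.toReal) / (Real.pi * t ^ 2)) (𝓝[>] 0) (𝓝 L)) :
    0 < L ∧ L ≤ 4 * A.toReal / (Real.pi * r) := by
  set W := A.toReal with hW
  have hWpos : 0 < W := ENNReal.toReal_pos hApos hAfin
  have hpi := Real.pi_pos
  constructor
  · have h1 : W / (Real.pi * R) ≤ L := by
      refine ge_of_tendsto hL ?_
      filter_upwards [self_mem_nhdsWithin] with t ht
      have ht' : 0 < t := ht
      have h2 := lower u hu K hc A hAfin hA R hR hsub t ht'
      have h3 := upper u hu K hK A hA r hr hsubr t ht'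
      have hfin : volume (pr u '' K + Metric.closedBall (0 : E) t) ≠ ⊤ :=
        ne_top_of_le_ne_top (ENNReal.mul_ne_top ENNReal.ofReal_ne_top hAfin) h3
      have h4 := ENNReal.toReal_mono hfin h2
      rw [ENNReal.toReal_mul, ENNReal.toReal_ofReal (by positivity)] at h4
      rw [le_div_iff₀ (by positivity)]
      have h5 : W / (Real.pi * R) * (Real.pi * t ^ 2) = W * t ^ 2 / R := by
        field_simp
      rw [h5]
      have h6 : t * (1 + (1 + t / (2 * R)) ^ 2) * W =
          2 * t * W + W * t ^ 2 / R + W * t ^ 3 / (4 * R ^ 2) := by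
        field_simp
        ring
      rw [h6] at h4
      have : 0 ≤ W * t ^ 3 / (4 * R ^ 2) := by positivity
      linarith
    exact lt_of_lt_of_le (by positivity) h1
  · have h1 : Tendsto (fun t : ℝ => 2 * W / Real.pi * (2 / r + t / r ^ 2)) (𝓝[>] 0)
        (𝓝 (2 * W / Real.pi * (2 / r + 0 / r ^ 2))) := by
      refine Tendsto.mono_left ?_ nhdsWithin_le_nhds
      exact (Continuous.tendsto (by fun_prop) 0)
    have h2 : 2 * W / Real.pi * (2 / r + 0 / r ^ 2) = 4 * W / (Real.pi * r) := by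
      field_simp
      ring
    rw [h2] at h1
    refine le_of_tendsto_of_tendsto hL h1 ?_
    filter_upwards [self_mem_nhdsWithin] with t ht
    have ht' : 0 < t := ht
    have h3 := upper u hu K hK A hA r hr hsubr t ht'
    have h4 := ENNReal.toReal_mono (ENNReal.mul_ne_top ENNReal.ofReal_ne_top hAfin) h3
    rw [ENNReal.toReal_mul, ENNReal.toReal_ofReal (by positivity)] at h4
    rw [div_le_iff₀ (by positivity)]
    have h5 : 2 * W / Real.pi * (2 / r + t / r ^ 2) * (Real.pi * t ^ 2) =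
        (1 + t / r) ^ 2 * (2 * t) * W - 2 * t * W := by
      field_simp
      ring
    rw [h5]
    linarith

end Pool.Agent.Y506.IP
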